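import Pool.Agent.H466.HP.Stm

/-!
# HP-E2: truncation of the Laplace transform over the zeros
-/

set_option autoImplicit false
set_option linter.all false

namespace Pool.Agent.H328.HP

open Complex MeasureTheory Set Filter Topology
open Pool.Agent.H862
open Pool.Agent.H862.VK (Yz)
open Pool.Agent.H466.HP

/-! ### the zeros -/

theorem re_lt {b : ℂ} (hb : Yz b = 0) : |b.re| < 1 / 2 := by
  rw [abs_lt]
  constructor
  · by_contra h
    have h1 : 1 / 2 ≤ (-b).re := by
      rw [neg_re]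
      linarith [not_lt.1 h]
    exact VK.Yz_ne h1 (by rw [VK.Yz_neg]; exact hb)
  · by_contra h
    exact VK.Yz_ne (not_lt.1 h) hb

theorem mu_nonneg (b : ℂ) : 0 ≤ mu b := Nat.cast_nonneg _

theorem mu_pos {b : ℂ} (hb : Yz b = 0) : 0 < mu b := by
  have hA : AnalyticAt ℂ Yz b := VK.Yz_diff.analyticAt b
  have h1 : analyticOrderAt Yz b ≠ 0 := by
    intro h
    exact hA.analyticOrderAt_eq_zero.1 h hb
  have h2 : analyticOrderAt Yz b ≠ ⊤ := by
    intro h
    rw [analyticOrderAt_eq_top] at h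
    have h3 : AnalyticOnNhd ℂ Yz univ := fun z _ => VK.Yz_diff.analyticAt z
    have h4 := h3.eqOn_zero_of_preconnected_of_eventuallyEq_zero isPreconnected_univ
      (mem_univ b) h
    exact VK.Yz_ne (z := 1) (by norm_num) (h4 (mem_univ 1))
  have h3 : analyticOrderNatAt Yz b ≠ 0 := by
    intro h
    unfold analyticOrderNatAt at h
    rcases ENat.toNat_eq_zero.1 h with h | h
    · exact h1 h
    · exact h2 h
  unfold mu
  exact_mod_cast Nat.pos_of_ne_zero h3

theorem sm0 (h : S_Z1) (t : ℝ) :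
    Summable (fun b : Zr => mu b / (1 + (t - (b : ℂ).im) ^ 2)) := by
  obtain ⟨C, hC, hB⟩ := h
  refine summable_of_sum_le (fun b => by have := mu_nonneg (b : ℂ); positivity)
    (c := C * Real.log (2 + |t|)) fun u => ?_
  have h1 := hB t (u.map (Function.Embedding.subtype _)) (by
    intro b hb
    obtain ⟨a, -, rfl⟩ := Finset.mem_map.1 hb
    exact a.2)
  rw [Finset.sum_map] at h1
  exact h1

theorem zcount (h : S_Z1) : Countable Zr := by
  have h1 := (sm0 h 0).countable_support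
  have h2 : Function.support (fun b : Zr => mu b / (1 + ((0 : ℝ) - (b : ℂ).im) ^ 2)) = Set.univ := by
    ext b
    simp only [Function.mem_support, Set.mem_univ, iff_true]
    have h3 := mu_pos b.2
    have h4 : (0 : ℝ) < 1 + ((0 : ℝ) - (b : ℂ).im) ^ 2 := by positivity
    exact (div_pos h3 h4).ne'
  rw [h2] at h1
  exact Set.countable_univ_iff.1 h1

theorem gauss_le (y : ℝ) : Real.exp (-y ^ 2 / 2) ≤ 2 / (1 + y ^ 2) := by
  have h1 : 1 + y ^ 2 / 2 ≤ Real.exp (y ^ 2 / 2) := by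
    have := Real.add_one_le_exp (y ^ 2 / 2)
    linarith
  have h2 : Real.exp (-y ^ 2 / 2) = (Real.exp (y ^ 2 / 2))⁻¹ := by
    rw [← Real.exp_neg]
    congr 1
    ring
  rw [h2, ← one_div, div_le_div_iff₀ (Real.exp_pos _) (by positivity)]
  nlinarith [sq_nonneg y]

theorem gw_norm (t : ℝ) (b : ℂ) : ‖gw t b‖ = Real.exp ((b.re ^ 2 - (b.im - t) ^ 2) / 2) := by
  unfold gw
  rw [Complex.norm_exp]
  congr 1
  have h1 : (b - I * t) ^ 2 / 2 = ((b - I * t) * (b - I * t)) / 2 := by ring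
  have h2 : (b - I * (t : ℂ)).re = b.re := by simp
  have h3 : (b - I * (t : ℂ)).im = b.im - t := by simp
  have h4 : ((b - I * t) ^ 2 / 2).re = ((b - I * t) ^ 2).re / 2 := by
    have := Complex.div_ofNat_re ((b - I * t) ^ 2) 2
    exact_mod_cast this
  rw [h4, pow_two (b - I * (t : ℂ)), mul_re, h2, h3]
  ring

theorem gw_le (t : ℝ) {b : ℂ} (hb : Yz b = 0) :
    ‖gw t b‖ ≤ Real.exp (1 / 8) * Real.exp (-(b.im - t) ^ 2 / 2) := by
  rw [gw_norm, ← Real.exp_add]
  apply Real.exp_le_exp.2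
  have h1 := (abs_lt.1 (re_lt hb))
  have h2 : b.re ^ 2 ≤ (1 / 2) ^ 2 := sq_le_sq' h1.1.le h1.2.le
  linarith

/-- the Gaussian series -/
theorem smG (h : S_Z1) (t : ℝ) :
    Summable (fun b : Zr => mu b * Real.exp (-((b : ℂ).im - t) ^ 2 / 2)) := by
  refine Summable.of_nonneg_of_le (fun b => mul_nonneg (mu_nonneg _) (Real.exp_pos _).le)
    (fun b => ?_) ((sm0 h t).mul_left 2)
  have h1 := gauss_le ((b : ℂ).im - t)
  have h2 : (t - (b : ℂ).im) ^ 2 = ((b : ℂ).im - t) ^ 2 := by ring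
  rw [h2]
  calc mu b * Real.exp (-((b : ℂ).im - t) ^ 2 / 2) ≤ mu b * (2 / (1 + ((b : ℂ).im - t) ^ 2)) :=
        mul_le_mul_of_nonneg_left h1 (mu_nonneg _)
    _ = _ := by ring

/-- the series of `Q` -/
theorem smQ (h : S_Z1) (t : ℝ) {U x : ℝ} (hU : 0 ≤ U) (hx : 0 < x) :
    Summable (fun b : Zr => mu b * Real.exp (U * |(b : ℂ).re|) *
      Real.exp (-((b : ℂ).im - t) ^ 2 / 2) / (x + |(b : ℂ).im - t|) ^ 2) := by
  refine Summable.of_nonneg_of_le (fun b => ?_) (fun b => ?_)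
    ((smG h t).mul_left (Real.exp (U / 2) / x ^ 2))
  · have := mu_nonneg (b : ℂ)
    positivity
  · have h1 : Real.exp (U * |(b : ℂ).re|) ≤ Real.exp (U / 2) := by
      apply Real.exp_le_exp.2
      have := mul_le_mul_of_nonneg_left (re_lt b.2).le hU
      linarith
    have h2 : x ^ 2 ≤ (x + |(b : ℂ).im - t|) ^ 2 := by
      have := abs_nonneg ((b : ℂ).im - t)
      apply pow_le_pow_left₀ hx.le
      linarith
    have h3 := mu_nonneg (b : ℂ)
    calc mu b * Real.exp (U * |(b : ℂ).re|) * Real.exp (-((b : ℂ).im - t) ^ 2 / 2) /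
          (x + |(b : ℂ).im - t|) ^ 2 ≤
        mu b * Real.exp (U / 2) * Real.exp (-((b : ℂ).im - t) ^ 2 / 2) / x ^ 2 := by gcongr
      _ = _ := by ring

/-! ### the transform of the cut-off -/

theorem wt_cont {U : ℝ} : Continuous (wt U) := by
  unfold wt
  fun_prop

theorem wt_nonneg {U u : ℝ} (hU : 0 < U) (hu : u ≤ U) : 0 ≤ wt U u := by
  unfold wt
  refine le_min zero_le_one ?_
  have : u / U ≤ 1 := (div_le_one hU).2 hu
  linarith

theorem wt_le (U u : ℝ) : wt U u ≤ 1 := min_le_left _ _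

theorem wt_one {U u : ℝ} (hU : 0 < U) (hu : u ≤ U / 2) : wt U u = 1 := by
  unfold wt
  refine min_eq_left ?_
  have : u / U ≤ 1 / 2 := by
    rw [div_le_iff₀ hU]
    linarith
  linarith

theorem wt_two {U u : ℝ} (hU : 0 < U) (hu : U / 2 ≤ u) : wt U u = 2 * (1 - u / U) := by
  unfold wt
  refine min_eq_right ?_
  have : 1 / 2 ≤ u / U := by
    rw [le_div_iff₀ hU]
    linarith
  linarith

theorem int_wt {U : ℝ} (hU : 0 < U) {s : ℂ} (hs : s ≠ 0) :
    ∫ u in (0 : ℝ)..U, (wt U u : ℂ) * cexp (-(u * s)) =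
      1 / s - 2 / U * (cexp (-(s * U / 2)) - cexp (-(s * U))) / s ^ 2 := by
  have hUc : (U : ℂ) ≠ 0 := by exact_mod_cast hU.ne'
  have hc : Continuous (fun u : ℝ => (wt U u : ℂ) * cexp (-(u * s))) :=
    (continuous_ofReal.comp wt_cont).mul (by fun_prop)
  rw [← intervalIntegral.integral_add_adjacent_intervals (b := U / 2)
    (hc.intervalIntegrable _ _) (hc.intervalIntegrable _ _)]
  have hd : ∀ u : ℝ, HasDerivAt (fun u : ℝ => cexp (-(u * s))) (cexp (-(u * s)) * (-s)) u := by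
    intro u
    have h1 : HasDerivAt (fun u : ℝ => -((u : ℂ) * s)) (-(1 * s)) u :=
      ((Complex.ofRealCLM.hasDerivAt (x := u)).mul_const s).neg
    have h2 := h1.cexp
    rwa [one_mul] at h2
  have e1 : ∫ u in (0 : ℝ)..(U / 2), (wt U u : ℂ) * cexp (-(u * s)) =
      (-cexp (-((U / 2 : ℝ) * s)) / s) - (-cexp (-((0 : ℝ) * s)) / s) := by
    have h1 : ∫ u in (0 : ℝ)..(U / 2), (wt U u : ℂ) * cexp (-(u * s)) =
        ∫ u in (0 : ℝ)..(U / 2), cexp (-(u * s)) := by
      refine intervalIntegral.integral_congr fun u hu => ?_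
      rw [uIcc_of_le (by linarith)] at hu
      show (wt U u : ℂ) * cexp (-(u * s)) = cexp (-(u * s))
      rw [wt_one hU hu.2, ofReal_one, one_mul]
    rw [h1]
    refine intervalIntegral.integral_eq_sub_of_hasDerivAt
      (f := fun u : ℝ => -cexp (-(u * s)) / s) (fun u _ => ?_)
      ((by fun_prop : Continuous fun u : ℝ => cexp (-(u * s))).intervalIntegrable _ _)
    have h2 := ((hd u).neg).div_const s
    have h3 : -(cexp (-(u * s)) * (-s)) / s = cexp (-(u * s)) := by
      field_simp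
    rw [h3] at h2
    exact h2
  have e2 : ∫ u in (U / 2)..U, (wt U u : ℂ) * cexp (-(u * s)) =
      (-(2 * (1 - ((U : ℝ) : ℂ) / U)) * cexp (-((U : ℝ) * s)) / s +
        2 / U * cexp (-((U : ℝ) * s)) / s ^ 2) -
      (-(2 * (1 - ((U / 2 : ℝ) : ℂ) / U)) * cexp (-((U / 2 : ℝ) * s)) / s +
        2 / U * cexp (-((U / 2 : ℝ) * s)) / s ^ 2) := by
    have h1 : ∫ u in (U / 2)..U, (wt U u : ℂ) * cexp (-(u * s)) =
        ∫ u in (U / 2)..U, (2 * (1 - (u : ℂ) / U)) * cexp (-(u * s)) := by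
      refine intervalIntegral.integral_congr fun u hu => ?_
      rw [uIcc_of_le (by linarith)] at hu
      show (wt U u : ℂ) * cexp (-(u * s)) = (2 * (1 - (u : ℂ) / U)) * cexp (-(u * s))
      rw [wt_two hU hu.1]
      push_cast
      ring
    rw [h1]
    refine intervalIntegral.integral_eq_sub_of_hasDerivAt
      (f := fun u : ℝ => -(2 * (1 - (u : ℂ) / U)) * cexp (-(u * s)) / s +
        2 / U * cexp (-(u * s)) / s ^ 2) (fun u _ => ?_)
      ((by fun_prop : Continuous fun u : ℝ =>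
        (2 * (1 - (u : ℂ) / U)) * cexp (-(u * s))).intervalIntegrable _ _)
    have h2 : HasDerivAt (fun u : ℝ => -(2 * (1 - (u : ℂ) / U))) (2 / U) u := by
      have h3 : HasDerivAt (fun u : ℝ => (u : ℂ) / U) (1 / U) u :=
        (Complex.ofRealCLM.hasDerivAt (x := u)).div_const _
      have h4 := ((h3.const_sub 1).const_mul 2).neg
      have h5 : -(2 * -(1 / (U : ℂ))) = 2 / U := by ring
      rw [h5] at h4
      exact h4
    have h6 := ((h2.mul (hd u)).div_const s).add (((hd u).const_mul (2 / (U : ℂ))).div_const (s ^ 2))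
    have h7 : (2 / U * cexp (-(u * s)) + -(2 * (1 - (u : ℂ) / U)) * (cexp (-(u * s)) * (-s))) / s +
        2 / U * (cexp (-(u * s)) * (-s)) / s ^ 2 = (2 * (1 - (u : ℂ) / U)) * cexp (-(u * s)) := by
      field_simp
      ring
    rw [h7] at h6
    exact h6
  rw [e1, e2]
  have g0 : cexp (-((0 : ℝ) * s)) = 1 := by
    rw [ofReal_zero, zero_mul, neg_zero, Complex.exp_zero]
  have g1 : cexp (-((U / 2 : ℝ) * s)) = cexp (-(s * U / 2)) := by
    congr 1
    push_cast
    ring
  have g2 : cexp (-((U : ℝ) * s)) = cexp (-(s * U)) := by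
    congr 1
    ring
  rw [g0, g1, g2]
  have g3 : ((U / 2 : ℝ) : ℂ) / U = 1 / 2 := by
    push_cast
    field_simp
  have g4 : ((U : ℝ) : ℂ) / U = 1 := div_self hUc
  rw [g3, g4]
  field_simp
  ring

/-! ### interchange -/

theorem SU_eq (h : S_Z1) {U : ℝ} (hU : 0 < U) {z : ℂ} (hz : 0 ≤ z.re) (t : ℝ)
    (hne : ∀ b : Zr, z ≠ b) :
    HasSum (fun b : Zr => (mu b : ℂ) * gw t b *
      (1 / (z - (b : ℂ)) - 2 / U * (cexp (-((z - b) * U / 2)) - cexp (-((z - b) * U))) /
        (z - (b : ℂ)) ^ 2)) (SU U z t) := by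
  have := zcount h
  set F : Zr → ℝ → ℂ := fun b u => ((wt U u : ℂ) * cexp (-(u * (z - (b : ℂ))))) *
    ((mu b : ℂ) * gw t b) with hF
  have hFc : ∀ b, Continuous (F b) := fun b =>
    ((continuous_ofReal.comp wt_cont).mul (by fun_prop)).mul continuous_const
  have hFi : ∀ b, Integrable (F b) (volume.restrict (Ioc 0 U)) := fun b =>
    ((hFc b).integrableOn_Icc (a := 0) (b := U)).mono_set Ioc_subset_Icc_self
  have hbd : ∀ b, ∀ u ∈ Ioc 0 U, ‖F b u‖ ≤
      Real.exp (U / 2) * Real.exp (1 / 8) * (mu b * Real.exp (-((b : ℂ).im - t) ^ 2 / 2)) := by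
    intro b u hu
    show ‖((wt U u : ℂ) * cexp (-(u * (z - (b : ℂ))))) * ((mu b : ℂ) * gw t b)‖ ≤ _
    rw [norm_mul, norm_mul, norm_mul, Complex.norm_real, Complex.norm_real, Real.norm_eq_abs,
      Real.norm_eq_abs, abs_of_nonneg (mu_nonneg _), abs_of_nonneg (wt_nonneg hU hu.2),
      Complex.norm_exp]
    have h1 : Real.exp (-(u * (z - (b : ℂ)))).re ≤ Real.exp (U / 2) := by
      apply Real.exp_le_exp.2
      have h2 : (-((u : ℂ) * (z - (b : ℂ)))).re = -(u * (z.re - (b : ℂ).re)) := by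
        rw [neg_re, re_ofReal_mul, sub_re]
      rw [h2]
      have h3 := (abs_lt.1 (re_lt b.2)).2
      have h4 : 0 ≤ u * z.re := mul_nonneg hu.1.le hz
      have h5 : u * (b : ℂ).re ≤ u * (1 / 2) := mul_le_mul_of_nonneg_left h3.le hu.1.le
      have h6 := hu.2
      linarith
    have h2 := gw_le t b.2
    have h3 := wt_le U u
    have h4 := wt_nonneg hU hu.2
    have h5 := mu_nonneg (b : ℂ)
    calc wt U u * Real.exp (-(u * (z - (b : ℂ)))).re * (mu b * ‖gw t b‖) ≤
        1 * Real.exp (U / 2) * (mu b * (Real.exp (1 / 8) * Real.exp (-((b : ℂ).im - t) ^ 2 / 2))) := by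
          gcongr
      _ = _ := by ring
  have hFn : Summable fun b => ∫ u, ‖F b u‖ ∂(volume.restrict (Ioc 0 U)) := by
    refine Summable.of_nonneg_of_le (fun b => integral_nonneg fun u => norm_nonneg _) (fun b => ?_)
      ((smG h t).mul_left (U * (Real.exp (U / 2) * Real.exp (1 / 8))))
    have h1 : ∫ u, ‖F b u‖ ∂(volume.restrict (Ioc 0 U)) ≤
        ∫ _u, (Real.exp (U / 2) * Real.exp (1 / 8) *
          (mu b * Real.exp (-((b : ℂ).im - t) ^ 2 / 2))) ∂(volume.restrict (Ioc 0 U)) := by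
      refine integral_mono_ae (hFi b).norm (integrable_const _) ?_
      filter_upwards [ae_restrict_mem measurableSet_Ioc] with u hu
      exact hbd b u hu
    refine h1.trans (le_of_eq ?_)
    rw [integral_const, measureReal_restrict_apply MeasurableSet.univ, univ_inter,
      Real.volume_real_Ioc_of_le hU.le, smul_eq_mul, sub_zero]
    ring
  have hsum := hasSum_integral_of_summable_integral_norm hFi hFn
  have hv : ∀ b : Zr, ∫ u, F b u ∂(volume.restrict (Ioc 0 U)) = (mu b : ℂ) * gw t b *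
      (1 / (z - (b : ℂ)) - 2 / U * (cexp (-((z - b) * U / 2)) - cexp (-((z - b) * U))) /
        (z - (b : ℂ)) ^ 2) := by
    intro b
    have h1 : z - (b : ℂ) ≠ 0 := sub_ne_zero.2 (hne b)
    rw [← intervalIntegral.integral_of_le hU.le]
    show ∫ u in (0 : ℝ)..U, ((wt U u : ℂ) * cexp (-(u * (z - (b : ℂ))))) *
      ((mu b : ℂ) * gw t b) = _
    rw [intervalIntegral.integral_mul_const, int_wt hU h1]
    ring
  have hG : ∫ u, (∑' b, F b u) ∂(volume.restrict (Ioc 0 U)) = SU U z t := by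
    unfold SU
    rw [intervalIntegral.integral_of_le hU.le]
    refine integral_congr_ae (Eventually.of_forall fun u => ?_)
    show ∑' b, F b u = (wt U u : ℂ) * cexp (-(u * z)) * G u t
    unfold G
    rw [← tsum_mul_left]
    refine tsum_congr fun b => ?_
    show ((wt U u : ℂ) * cexp (-(u * (z - (b : ℂ))))) * ((mu b : ℂ) * gw t b) = _
    have h1 : cexp (-(u * (z - (b : ℂ)))) = cexp (-(u * z)) * cexp (u * (b : ℂ)) := by
      rw [← Complex.exp_add]
      congr 1
      ring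
    rw [h1]
    ring
  rw [hG] at hsum
  have hfe : (fun b : Zr => ∫ u, F b u ∂(volume.restrict (Ioc 0 U))) = fun b : Zr =>
      (mu b : ℂ) * gw t b *
      (1 / (z - (b : ℂ)) - 2 / U * (cexp (-((z - b) * U / 2)) - cexp (-((z - b) * U))) /
        (z - (b : ℂ)) ^ 2) := funext hv
  rw [hfe] at hsum
  exact hsum

/-- distance to the zeros -/
theorem dist_ge {M t y0 : ℝ} (hM : 1 ≤ M) (hy : 0 < y0) (hCF : CF t y0 M) {z : ℂ}
    (hz : z ∈ Kt t y0 1 M) {b : ℂ} (hb : Yz b = 0) :
    (z.re + |b.im - t|) / (4 * M) ≤ ‖z - b‖ := by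
  obtain ⟨hz1, hz2, hz3⟩ := hz
  have hM0 : 0 < M := by linarith
  have hx : 0 < z.re := by linarith
  rw [div_le_iff₀ (by positivity)]
  by_cases hη : 2 * M * z.re ≤ |b.im - t|
  · have h1 : |b.im - t| ≤ |z.im - b.im| + |z.im - t| := by
      have e : b.im - t = -(z.im - b.im) + (z.im - t) := by ring
      rw [e]
      refine (abs_add_le _ _).trans ?_
      rw [abs_neg]
    have h2 : |z.im - b.im| ≤ ‖z - b‖ := by
      have := Complex.abs_im_le_norm (z - b)
      rwa [sub_im] at this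
    have h3 : |b.im - t| / 2 ≤ ‖z - b‖ := by linarith
    have h4 : ‖z - b‖ * 4 ≤ ‖z - b‖ * (4 * M) := by
      apply mul_le_mul_of_nonneg_left _ (norm_nonneg _)
      linarith
    have h5 : 2 * z.re ≤ 2 * M * z.re := by nlinarith
    linarith
  · have hη' := not_le.1 hη
    have h1 : |b.re| ≤ z.re / 4 := by
      rcases hCF b hb with h | h
      · linarith
      · refine h.trans ?_
        rw [div_le_iff₀ (by positivity)]
        nlinarith
    have h2 : |z.re - b.re| ≤ ‖z - b‖ := by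
      have := Complex.abs_re_le_norm (z - b)
      rwa [sub_re] at this
    have h3 : z.re - |b.re| ≤ |z.re - b.re| := by
      have h4 := le_abs_self b.re
      have h5 := le_abs_self (z.re - b.re)
      linarith
    have h4 : 3 * z.re / 4 ≤ ‖z - b‖ := by linarith
    have h5 : 3 * z.re / 4 * (4 * M) ≤ ‖z - b‖ * (4 * M) :=
      mul_le_mul_of_nonneg_right h4 (by positivity)
    nlinarith

/-- **Truncation of `S`.** -/
theorem e2 (h : S_Z1) : S_E2 := by
  refine ⟨64 * Real.exp (1 / 8), by positivity, fun M t y0 U hM hy hU hCF z hz => ?_⟩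
  have hM0 : 0 < M := by linarith
  have hU0 : 0 < U := by linarith
  have hx : 0 < z.re := lt_of_lt_of_le hy hz.1
  have hdist : ∀ b : Zr, (z.re + |(b : ℂ).im - t|) / (4 * M) ≤ ‖z - b‖ := fun b =>
    dist_ge hM hy hCF hz b.2
  have hpos : ∀ b : Zr, 0 < (z.re + |(b : ℂ).im - t|) / (4 * M) := fun b => by
    have := abs_nonneg ((b : ℂ).im - t)
    positivity
  have hnorm : ∀ b : Zr, 0 < ‖z - b‖ := fun b => (hpos b).trans_le (hdist b)
  have hs : ∀ b : Zr, z - (b : ℂ) ≠ 0 := fun b => norm_pos_iff.1 (hnorm b)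
  have hne : ∀ b : Zr, z ≠ b := fun b => sub_ne_zero.1 (hs b)
  have hSU := SU_eq h hU0 hx.le t hne
  have hSs : Summable (fun b : Zr => (mu b : ℂ) * gw t b / (z - (b : ℂ))) := by
    refine Summable.of_norm_bounded
      (g := fun b : Zr => (Real.exp (1 / 8) * (4 * M / z.re)) *
        (mu b * Real.exp (-((b : ℂ).im - t) ^ 2 / 2))) ((smG h t).mul_left _) fun b => ?_
    rw [norm_div, norm_mul, Complex.norm_real, Real.norm_eq_abs, abs_of_nonneg (mu_nonneg _),
      div_le_iff₀ (hnorm b)]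
    have h1 : 1 ≤ 4 * M / z.re * ‖z - b‖ := by
      have h2 : z.re / (4 * M) ≤ ‖z - b‖ := by
        refine le_trans ?_ (hdist b)
        have := abs_nonneg ((b : ℂ).im - t)
        gcongr
        linarith
      rw [div_le_iff₀ (by positivity)] at h2
      rw [div_mul_eq_mul_div, le_div_iff₀ hx]
      linarith
    have h3 := gw_le t b.2
    have h4 := mu_nonneg (b : ℂ)
    calc mu b * ‖gw t b‖ ≤ mu b * (Real.exp (1 / 8) * Real.exp (-((b : ℂ).im - t) ^ 2 / 2)) * 1 := by
          rw [mul_one]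
          gcongr
      _ ≤ mu b * (Real.exp (1 / 8) * Real.exp (-((b : ℂ).im - t) ^ 2 / 2)) *
          (4 * M / z.re * ‖z - b‖) := by gcongr
      _ = _ := by ring
  have hdiff := hSs.hasSum.sub hSU
  have hQ := (smQ h t hU0.le hx).hasSum.mul_left
    (64 * Real.exp (1 / 8) * M ^ 2 / U * Real.exp (-(z.re * U / 2)))
  have hfin := hdiff.norm_le_of_bounded hQ fun b => ?_
  · exact hfin
  -- the terms
  set s : ℂ := z - (b : ℂ) with hsd
  have e1 : (mu b : ℂ) * gw t b / s - (mu b : ℂ) * gw t b *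
      (1 / s - 2 / U * (cexp (-(s * U / 2)) - cexp (-(s * U))) / s ^ 2) =
      (mu b : ℂ) * gw t b * (2 / U * (cexp (-(s * U / 2)) - cexp (-(s * U)))) / s ^ 2 := by
    ring
  rw [e1, norm_div, norm_mul, norm_mul, norm_mul, Complex.norm_real, Real.norm_eq_abs,
    abs_of_nonneg (mu_nonneg _), norm_pow]
  have e2 : ‖(2 / U : ℂ)‖ = 2 / U := by
    rw [norm_div, Complex.norm_real, Real.norm_eq_abs, abs_of_pos hU0]
    norm_num
  rw [e2]
  have hre : s.re = z.re - (b : ℂ).re := by rw [hsd, sub_re]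
  have hbabs := le_abs_self (b : ℂ).re
  have hb0 := abs_nonneg (b : ℂ).re
  have e3 : ‖cexp (-(s * U / 2)) - cexp (-(s * U))‖ ≤
      2 * (Real.exp (-(z.re * U / 2)) * Real.exp (U * |(b : ℂ).re|)) := by
    refine (norm_sub_le _ _).trans ?_
    rw [Complex.norm_exp, Complex.norm_exp, ← Real.exp_add]
    have f1 : (-(s * U / 2)).re = -(s.re * U / 2) := by
      have : -(s * U / 2) = ((-(U / 2) : ℝ) : ℂ) * s := by push_cast; ring
      rw [this, re_ofReal_mul]
      ring
    have f2 : (-(s * U)).re = -(s.re * U) := by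
      have : -(s * U) = ((-U : ℝ) : ℂ) * s := by push_cast; ring
      rw [this, re_ofReal_mul]
      ring
    rw [f1, f2, hre]
    have g1 : Real.exp (-((z.re - (b : ℂ).re) * U / 2)) ≤
        Real.exp (-(z.re * U / 2) + U * |(b : ℂ).re|) := by
      apply Real.exp_le_exp.2
      have k1 : (b : ℂ).re * U ≤ |(b : ℂ).re| * U := mul_le_mul_of_nonneg_right hbabs hU0.le
      have k2 : 0 ≤ |(b : ℂ).re| * U := mul_nonneg hb0 hU0.le
      nlinarith
    have g2 : Real.exp (-((z.re - (b : ℂ).re) * U)) ≤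
        Real.exp (-(z.re * U / 2) + U * |(b : ℂ).re|) := by
      apply Real.exp_le_exp.2
      have k1 : (b : ℂ).re * U ≤ |(b : ℂ).re| * U := mul_le_mul_of_nonneg_right hbabs hU0.le
      have k2 : 0 ≤ z.re * U := mul_nonneg hx.le hU0.le
      nlinarith
    linarith
  have e4 : ((z.re + |(b : ℂ).im - t|) / (4 * M)) ^ 2 ≤ ‖s‖ ^ 2 :=
    pow_le_pow_left₀ (hpos b).le (hdist b) 2
  have e5 : 0 < ((z.re + |(b : ℂ).im - t|) / (4 * M)) ^ 2 := by
    have := hpos b
    positivity
  have h3 := gw_le t b.2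
  have h4 := mu_nonneg (b : ℂ)
  have hxa : 0 < z.re + |(b : ℂ).im - t| := by
    have := abs_nonneg ((b : ℂ).im - t)
    linarith
  calc mu b * ‖gw t b‖ * (2 / U * ‖cexp (-(s * U / 2)) - cexp (-(s * U))‖) / ‖s‖ ^ 2 ≤
      mu b * (Real.exp (1 / 8) * Real.exp (-((b : ℂ).im - t) ^ 2 / 2)) *
        (2 / U * (2 * (Real.exp (-(z.re * U / 2)) * Real.exp (U * |(b : ℂ).re|)))) /
        ((z.re + |(b : ℂ).im - t|) / (4 * M)) ^ 2 := by gcongr
    _ = _ := by
      field_simp
      ring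

end Pool.Agent.H328.HP
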